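import Pool.Agent.H32.PctlD
import Pool.Agent.H37.CI

namespace Pool.Agent.Results.MP_1d78e3_lc.Undecidable

open Pool.Agent.H32.Pctl Pool.Agent.H37 Pool.Agent.H38.CM

theorem result : ¬ ∃ f : ℕ → Bool, Computable f ∧
    ∀ φ : Fm, f φ.code = true ↔ HasTreeModel φ := by
  rintro ⟨f, hf, H⟩
  obtain ⟨N, k, z, s0, kd, rg, al, h1, h2, h3, h4⟩ := exists_r0
  let R : Pr := ⟨N, k, z, kd, rg, al⟩
  have hk : 0 < R.k := by have := h2 0; simp only [R]; omega
  have hc : CI ∅ fun x => (R.phi s0 x).code := by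
    simp only [Pr.phi, ms, pf, Fm.code]
    fun_prop
  refine h4 (ComputablePred.computable_iff.2 ⟨_, hf.comp hc.computable,
    funext fun x => propext ?_⟩)
  rw [H]
  refine ⟨complete (R := R) h2 h3 h1, ?_⟩
  rintro ⟨S, _, _, _, M, μ, T, L, s, hs⟩
  obtain ⟨a1, a2, a3⟩ := (sat_phi T L hk s0 x).1 hs
  exact (sound (R := R) T L h2 s a2 s0 h1 0 (by omega) a1).2 _
    (fun r hr => by rw [init, Function.update_of_ne (by omega)]) a3

end Pool.Agent.Results.MP_1d78e3_lc.Undecidable
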